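import Pool.Agent.Helper74.UB.Goals3

set_option autoImplicit false

namespace Pool.Agent.Helper48.UB

open Finset Equiv Helper28.VF Pool.Agent.Helper74.UB
open scoped Classical

section basic
variable {D V E F : Type} [Fintype D] [Fintype V] [Fintype E] [Fintype F] (M : PM D V E F)

theorem fc_ph (d : D) : M.fc (ph M d) = M.fc d :=
  ((M.fc_iff d (ph M d)).2 ⟨1, rfl⟩).symm

theorem vt_ph (d : D) : M.vt (ph M d) = tg M d :=
  ((M.vt_iff (M.α d) (M.σ (M.α d))).2 ⟨1, rfl⟩).symm

theorem ph_surj (x : D) : ∃ d, ph M d = x :=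
  ⟨M.α (M.σ.symm x), by simp [ph, M.α_inv]⟩

theorem corner (hM : Small M) (d e : D) (h4 : T4 M d) (hf : M.fc d = M.fc e)
    (hv : M.vt d = M.vt e) : d = e := by
  have h1 : (M.σ * M.α).SameCycle d e := (M.fc_iff d e).1 hf
  obtain ⟨n, hn⟩ := h1.exists_nat_pow_eq
  have key : ∀ n : ℕ, ((M.σ * M.α) ^ n) d = d ∨ ((M.σ * M.α) ^ n) d = ph M d ∨
      ((M.σ * M.α) ^ n) d = ph M (ph M d) ∨ ((M.σ * M.α) ^ n) d = ph M (ph M (ph M d)) := by
    intro n
    induction n with
    | zero => left; rfl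
    | succ n ih =>
      have e1 : ((M.σ * M.α) ^ (n + 1)) d = ph M (((M.σ * M.α) ^ n) d) := by
        rw [pow_succ']
        rfl
      rw [e1]
      rcases ih with h | h | h | h <;> rw [h]
      · right; left; rfl
      · right; right; left; rfl
      · right; right; right; rfl
      · left; exact h4.1
  rcases key n with h | h | h | h <;> rw [hn] at h
  · exact h.symm
  · exfalso
    rw [h, vt_ph] at hv
    exact hM.noloop d hv.symm
  · exfalso
    rw [h] at hv
    exact hM.opp d hv.symm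
  · exfalso
    have h5 : M.vt d = tg M (ph M (ph M (ph M d))) := by
      rw [← vt_ph]
      rw [h4.1]
    rw [h] at hv
    exact hM.noloop _ (h5.symm.trans hv)

end basic

theorem conesmall : StmtConeSmall := by
  intro D V E F E' F' _ _ _ _ _ _ M I M' C hM hI
  have hIp : ∀ d, I (M.fc (ph M d)) ↔ I (M.fc d) := fun d => by rw [fc_ph]
  -- the face permutation outside `I`
  have ho3 : ∀ d, ¬ I (M.fc d) → ph M' (ph M' (ph M' (Sum.inl d))) =
      Sum.inl (ph M (ph M (ph M d))) := by
    intro d hd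
    rw [C.po d hd, C.po _ (by rwa [hIp]), C.po _ (by rwa [hIp, hIp])]
  have ho2 : ∀ d, ¬ I (M.fc d) → ph M' (ph M' (Sum.inl d)) = Sum.inl (ph M (ph M d)) := by
    intro d hd
    rw [C.po d hd, C.po _ (by rwa [hIp])]
  have ho4 : ∀ d, ¬ I (M.fc d) → ph M' (ph M' (ph M' (ph M' (Sum.inl d)))) =
      Sum.inl (ph M (ph M (ph M (ph M d)))) := by
    intro d hd
    rw [ho3 d hd, C.po _ (by rwa [hIp, hIp, hIp])]
  have hT3o : ∀ d, ¬ I (M.fc d) → (T3 M' (Sum.inl d) ↔ T3 M d) := by
    intro d hd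
    unfold T3
    rw [ho3 d hd]
    exact Sum.inl_injective.eq_iff
  have hT4o : ∀ d, ¬ I (M.fc d) → (T4 M' (Sum.inl d) ↔ T4 M d) := by
    intro d hd
    unfold T4
    rw [ho4 d hd, hT3o d hd]
    rw [Sum.inl_injective.eq_iff]
  -- the new triangles
  have hi1 : ∀ d, I (M.fc d) → T3 M' (Sum.inl d) := by
    intro d hd
    have a : I (M.fc (ph M d)) := (hIp d).2 hd
    unfold T3
    rw [C.pi d hd a, C.pf d hd a, C.pt]
  have hi2 : ∀ d : {d : D // I (M.fc d)}, T3 M' (Sum.inr (d, true)) := by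
    rintro ⟨d, hd⟩
    have a : I (M.fc (ph M d)) := (hIp d).2 hd
    unfold T3
    rw [C.pt, C.pi d hd a, C.pf d hd a]
  have hi3 : ∀ d : {d : D // I (M.fc d)}, T3 M' (Sum.inr (d, false)) := by
    rintro ⟨x, hx⟩
    obtain ⟨d, rfl⟩ := ph_surj M x
    have hd : I (M.fc d) := (hIp d).1 hx
    unfold T3
    rw [C.pf d hd hx, C.pt, C.pi d hd hx]
  have tl : ∀ d, tg M' (Sum.inl d) = Sum.inl (tg M d) := by
    intro d
    unfold tg
    rw [C.al, C.vl]
  have tf : ∀ d : {d : D // I (M.fc d)}, tg M' (Sum.inr (d, false)) = Sum.inr ⟨M.fc d.1, d.2⟩ := by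
    intro d
    unfold tg
    rw [C.ar]
    exact C.vtr d
  have tt : ∀ d : {d : D // I (M.fc d)}, tg M' (Sum.inr (d, true)) = Sum.inl (M.vt d.1) := by
    intro d
    unfold tg
    rw [C.ar]
    exact C.vf d
  have small : Small M' := by
    refine ⟨?_, ?_, ?_, ?_⟩
    · rintro (d | ⟨d, _ | _⟩)
      · rw [tl, C.vl]
        exact fun h => hM.noloop d (Sum.inl_injective h)
      · rw [tf, C.vf]
        exact fun h => by cases h
      · rw [tt, C.vtr]
        exact fun h => by cases h
    · rintro (d | ⟨d, _ | _⟩) (e | ⟨e, _ | _⟩) h1 h2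
      · rw [C.vl, C.vl] at h1
        rw [tl, tl] at h2
        rw [hM.simple d e (Sum.inl_injective h1) (Sum.inl_injective h2)]
      · rw [tl, tf] at h2; cases h2
      · rw [C.vl, C.vtr] at h1; cases h1
      · rw [tl, tf] at h2; cases h2
      · rw [C.vf, C.vf] at h1
        rw [tf, tf] at h2
        have h3 : M.fc d.1 = M.fc e.1 := congrArg Subtype.val (Sum.inr_injective h2)
        have h4 := corner M hM d.1 e.1 (hI _ d.2) h3 (Sum.inl_injective h1)
        rw [Subtype.ext h4]
      · rw [C.vf, C.vtr] at h1; cases h1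
      · rw [C.vl, C.vtr] at h1; cases h1
      · rw [C.vf, C.vtr] at h1; cases h1
      · rw [tt, tt] at h2
        rw [C.vtr, C.vtr] at h1
        have h3 : M.fc d.1 = M.fc e.1 := congrArg Subtype.val (Sum.inr_injective h1)
        have h4 := corner M hM d.1 e.1 (hI _ d.2) h3 (Sum.inl_injective h2)
        rw [Subtype.ext h4]
    · rintro (d | ⟨d, _ | _⟩)
      · by_cases hd : I (M.fc d)
        · exact Or.inl (hi1 d hd)
        · rcases hM.face d with h | h
          · exact Or.inl ((hT3o d hd).2 h)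
          · exact Or.inr ((hT4o d hd).2 h)
      · exact Or.inl (hi3 d)
      · exact Or.inl (hi2 d)
    · rintro (d | ⟨⟨d, hd⟩, _ | _⟩)
      · by_cases hd : I (M.fc d)
        · have a : I (M.fc (ph M d)) := (hIp d).2 hd
          rw [C.pi d hd a, C.pf d hd a, C.vtr, C.vl]
          exact fun h => by cases h
        · rw [ho2 d hd, C.vl, C.vl]
          exact fun h => hM.opp d (Sum.inl_injective h)
      · obtain ⟨x, rfl⟩ := ph_surj M d
        have hx : I (M.fc x) := (hIp x).1 hd
        rw [C.pf x hx hd, C.pt, C.vl, C.vf]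
        intro h
        have h' : M.vt x = M.vt (ph M x) := Sum.inl_injective h
        rw [vt_ph] at h'
        exact hM.noloop x h'.symm
      · have a : I (M.fc (ph M d)) := (hIp d).2 hd
        rw [C.pt, C.pi d hd a, C.vf, C.vtr]
        exact fun h => by cases h
  refine ⟨small, ?_, fun d hd => ⟨hT3o d hd, hT4o d hd⟩, hi1⟩
  intro v
  unfold link
  rw [Finset.sum_filter, Finset.sum_filter, Fintype.sum_sum_type, Fintype.sum_prod_type]
  have e1 : ∀ d : {d : D // I (M.fc d)}, (∑ b : Bool, if M'.vt (Sum.inr (d, b)) = Sum.inl v then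
      (if T3 M' (Sum.inr (d, b)) then 1 else 2) else 0) = if M.vt d.1 = v then 1 else 0 := by
    intro d
    rw [Fintype.sum_bool, C.vtr, C.vf, if_neg (by exact fun h => by cases h), if_pos (hi3 d), zero_add]
    by_cases h : M.vt d.1 = v
    · rw [if_pos h, if_pos (by rw [h])]
    · rw [if_neg h, if_neg (fun h' => h (Sum.inl_injective h'))]
  trans (∑ a : D, if M'.vt (Sum.inl a) = Sum.inl v then (if T3 M' (Sum.inl a) then 1 else 2) else 0)
    + ∑ x : {d : D // I (M.fc d)}, (if M.vt x.1 = v then 1 else 0)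
  · congr 1
    · refine Finset.sum_congr rfl fun d _ => ?_
      split_ifs <;> rfl
    · refine Finset.sum_congr rfl fun d _ => ?_
      convert e1 d
  rw [← Finset.sum_subtype (univ.filter fun d => I (M.fc d)) (by simp)
    (fun d => if M.vt d = v then 1 else 0), Finset.sum_filter, ← Finset.sum_add_distrib]
  refine Finset.sum_congr rfl fun d _ => ?_
  rw [C.vl]
  by_cases h : M.vt d = v
  · rw [if_pos (by rw [h]), if_pos h, if_pos h]
    by_cases hd : I (M.fc d)
    · rw [if_pos (hi1 d hd), if_pos hd, if_neg (hI d hd).2]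
    · rw [if_neg hd, add_zero]
      by_cases h3 : T3 M d
      · rw [if_pos h3, if_pos ((hT3o d hd).2 h3)]
      · rw [if_neg h3, if_neg (fun h' => h3 ((hT3o d hd).1 h'))]
  · rw [if_neg (fun h' => h (Sum.inl_injective h')), if_neg h, if_neg h]
    simp

end Pool.Agent.Helper48.UB
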